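import Pool.Agent.H57.UD.Design
import Pool.Agent.H52.UB.Blocks

/-!
# Project UD: the choice of the parameters
-/

set_option autoImplicit false

open Filter Topology

namespace Pool.Agent.H57.UD

open Pool.Agent.H52.UB

/-- a constant close to `1 / 2` -/
theorem asym_eps (A : ℝ) (hA : 1 / 2 < A) : ∃ ε : ℝ, 0 < ε ∧ ε < 1 / 4 ∧
    1 / (2 * (1 - ε) ^ 2 * (1 - 3 * ε)) < A := by
  have hc : ContinuousAt (fun ε : ℝ => 1 / (2 * (1 - ε) ^ 2 * (1 - 3 * ε))) 0 := by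
    refine ContinuousAt.div continuousAt_const ?_ ?_
    · fun_prop
    · norm_num
  have h0 : (fun ε : ℝ => 1 / (2 * (1 - ε) ^ 2 * (1 - 3 * ε))) 0 < A := by
    norm_num
    linarith
  have h1 : ∀ᶠ ε in 𝓝 (0 : ℝ), 1 / (2 * (1 - ε) ^ 2 * (1 - 3 * ε)) < A :=
    hc.eventually (Iio_mem_nhds h0)
  have h2 : ∀ᶠ ε in 𝓝[>] (0 : ℝ), 1 / (2 * (1 - ε) ^ 2 * (1 - 3 * ε)) < A :=
    h1.filter_mono nhdsWithin_le_nhds
  have h3 : ∀ᶠ ε in 𝓝[>] (0 : ℝ), ε < 1 / 4 := by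
    have h3' : ∀ᶠ ε in 𝓝 (0 : ℝ), ε < 1 / 4 := Iio_mem_nhds (by norm_num)
    exact h3'.filter_mono nhdsWithin_le_nhds
  have h4 : ∀ᶠ ε in 𝓝[>] (0 : ℝ), (0 : ℝ) < ε := self_mem_nhdsWithin
  obtain ⟨ε, ⟨h5, h6⟩, h7⟩ := ((h2.and h3).and h4).exists
  exact ⟨ε, h7, h6, h5⟩

theorem asym_u : Tendsto (fun x : ℝ => Real.log x / x) atTop (𝓝 0) := by
  have h := Real.isLittleO_log_id_atTop
  exact h.tendsto_div_nhds_zero

theorem asym_v (ε : ℝ) (hε : 0 < ε) :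
    Tendsto (fun x : ℝ => Real.log x ^ 2 / x ^ ε) atTop (𝓝 0) := by
  have h := isLittleO_log_rpow_rpow_atTop (s := ε) 2 hε
  have h2 := h.tendsto_div_nhds_zero
  refine h2.congr fun x => ?_
  norm_num

/-- the inequalities for `x = log n` -/
theorem asym_real (A ε : ℝ) (hε : 0 < ε) (hε1 : ε < 1 / 4)
    (hA : 1 / (2 * (1 - ε) ^ 2 * (1 - 3 * ε)) < A) : ∀ᶠ x : ℝ in atTop,
    x / ε + 3 ≤ x ^ (2 - 2 * ε) ∧ x ^ (2 - 3 * ε) ≤ x ^ (2 - 2 * ε) - x / ε - 1 ∧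
    (x + 2 * Real.log x) / ((1 - 3 * ε) * Real.log x) + 1 ≤ x ∧ 1 ≤ Real.log x ∧
    x ^ (2 - 2 * ε) + 1 ≤ x ^ 2 ∧ 16 ≤ x ∧
    x ^ ε * (x ^ (2 - 2 * ε) + 1) + x ^ (1 - ε) * (x / (ε * Real.log x)) +
      x / ((1 - ε) * Real.log x) *
        (4 + ((x + 2 * Real.log x) / ((1 - 3 * ε) * Real.log x) + 5) / (2 * (1 - ε))) <
      A * (x / Real.log x) ^ 2 := by
  -- limits
  have hu := asym_u
  have hv := asym_v ε hε
  have hG : Tendsto (fun x : ℝ => (2 + 1 / ε) * (Real.log x ^ 2 / x ^ ε) +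
      1 / (1 - ε) * (4 * (Real.log x / x) + ((1 + 2 * (Real.log x / x)) / (1 - 3 * ε) +
        5 * (Real.log x / x)) / (2 * (1 - ε)))) atTop
      (𝓝 ((2 + 1 / ε) * 0 + 1 / (1 - ε) * (4 * 0 + ((1 + 2 * 0) / (1 - 3 * ε) +
        5 * 0) / (2 * (1 - ε))))) :=
    (hv.const_mul _).add (((hu.const_mul 4).add ((((tendsto_const_nhds.add
      (hu.const_mul 2)).div_const _).add (hu.const_mul 5)).div_const _)).const_mul _)
  have hlim : (2 + 1 / ε) * 0 + 1 / (1 - ε) * (4 * 0 + ((1 + 2 * 0) / (1 - 3 * ε) +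
        5 * 0) / (2 * (1 - ε))) < A := by
    refine lt_of_eq_of_lt ?_ hA
    have h1 : 1 - ε ≠ 0 := by linarith
    have h2 : 1 - 3 * ε ≠ 0 := by linarith
    field_simp
    ring
  have hev : ∀ᶠ x : ℝ in atTop, (2 + 1 / ε) * (Real.log x ^ 2 / x ^ ε) +
      1 / (1 - ε) * (4 * (Real.log x / x) + ((1 + 2 * (Real.log x / x)) / (1 - 3 * ε) +
        5 * (Real.log x / x)) / (2 * (1 - ε))) < A := hG.eventually (Iio_mem_nhds hlim)
  have h1 : ∀ᶠ x : ℝ in atTop, 1 / ε + 3 ≤ x ^ (1 - 2 * ε) :=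
    (tendsto_rpow_atTop (by linarith)).eventually_ge_atTop _
  have h2 : ∀ᶠ x : ℝ in atTop, 2 + 1 / ε ≤ x ^ ε :=
    (tendsto_rpow_atTop hε).eventually_ge_atTop _
  have h3 : ∀ᶠ x : ℝ in atTop, 16 ≤ Real.log x := Real.tendsto_log_atTop.eventually_ge_atTop _
  filter_upwards [hev, h1, h2, h3, eventually_ge_atTop (16 : ℝ)] with x hx h1 h2 h3 h4
  have hx0 : 0 < x := by linarith
  have hx1 : 1 ≤ x := by linarith
  have hℓ0 : 0 < Real.log x := by linarith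
  have hε3 : 0 < 1 - 3 * ε := by linarith
  have hε2 : 0 < 1 - ε := by linarith
  refine ⟨?_, ?_, ?_, by linarith, ?_, h4, ?_⟩
  · have e : x ^ (2 - 2 * ε) = x * x ^ (1 - 2 * ε) := by
      rw [← Real.rpow_one_add' hx0.le (by linarith)]
      congr 1
      ring
    rw [e]
    have h5 := mul_le_mul_of_nonneg_left h1 hx0.le
    have h6 : x * (1 / ε + 3) = x / ε + 3 * x := by ring
    linarith
  · have e : x ^ (2 - 2 * ε) = x ^ (2 - 3 * ε) * x ^ ε := by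
      rw [← Real.rpow_add hx0]
      congr 1
      ring
    have h5 : x ≤ x ^ (2 - 3 * ε) := by
      calc x = x ^ (1 : ℝ) := (Real.rpow_one x).symm
        _ ≤ x ^ (2 - 3 * ε) := Real.rpow_le_rpow_of_exponent_le hx1 (by linarith)
    have h6 : x ^ (2 - 3 * ε) * (2 + 1 / ε) ≤ x ^ (2 - 3 * ε) * x ^ ε :=
      mul_le_mul_of_nonneg_left h2 (by positivity)
    have h7 : x / ε ≤ x ^ (2 - 3 * ε) * (1 / ε) := by
      rw [mul_one_div]
      exact div_le_div_of_nonneg_right h5 hε.le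
    rw [e]
    nlinarith
  · have h5 : (x + 2 * Real.log x) / ((1 - 3 * ε) * Real.log x) ≤ x / 4 + 8 := by
      rw [div_le_iff₀ (by positivity)]
      have h6 : (1 / 4 : ℝ) * Real.log x ≤ (1 - 3 * ε) * Real.log x :=
        mul_le_mul_of_nonneg_right (by linarith) hℓ0.le
      have h7 : (x / 4 + 8) * (1 / 4 * Real.log x) ≤ (x / 4 + 8) * ((1 - 3 * ε) * Real.log x) :=
        mul_le_mul_of_nonneg_left h6 (by positivity)
      nlinarith
    linarith
  · have e : x ^ 2 = x ^ (2 - 2 * ε) * (x ^ ε) ^ 2 := by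
      rw [← Real.rpow_natCast (x ^ ε) 2, ← Real.rpow_mul hx0.le, ← Real.rpow_add hx0,
        ← Real.rpow_natCast x 2]
      congr 1
      push_cast
      ring
    have h5 : 1 ≤ x ^ (2 - 2 * ε) := Real.one_le_rpow hx1 (by linarith)
    have h6 : 0 < 1 / ε := by positivity
    have h7 : 4 ≤ (x ^ ε) ^ 2 := by nlinarith
    rw [e]
    nlinarith
  · have e1 : x ^ (2 - ε) = (x / Real.log x) ^ 2 * (Real.log x ^ 2 / x ^ ε) := by
      rw [Real.rpow_sub hx0, Real.rpow_two]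
      have : x ^ ε ≠ 0 := by positivity
      field_simp
    have e2 : x ^ ε * x ^ (2 - 2 * ε) = x ^ (2 - ε) := by
      rw [← Real.rpow_add hx0]
      congr 1
      ring
    have e3 : x ^ (1 - ε) * x = x ^ (2 - ε) := by
      rw [← Real.rpow_add_one hx0.ne']
      congr 1
      ring
    have h5 : x ^ ε ≤ x ^ (2 - ε) := Real.rpow_le_rpow_of_exponent_le hx1 (by linarith)
    have h6 : x ^ (1 - ε) * (x / (ε * Real.log x)) ≤ x ^ (2 - ε) / ε := by
      rw [← mul_div_assoc, e3]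
      refine div_le_div_of_nonneg_left (by positivity) hε ?_
      nlinarith
    have h7 : x / ((1 - ε) * Real.log x) *
        (4 + ((x + 2 * Real.log x) / ((1 - 3 * ε) * Real.log x) + 5) / (2 * (1 - ε))) =
        (x / Real.log x) ^ 2 * (1 / (1 - ε) * (4 * (Real.log x / x) +
          ((1 + 2 * (Real.log x / x)) / (1 - 3 * ε) +
          5 * (Real.log x / x)) / (2 * (1 - ε)))) := by
      field_simp
    have h8 : x ^ ε * (x ^ (2 - 2 * ε) + 1) ≤ 2 * x ^ (2 - ε) := by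
      rw [mul_add, e2, mul_one]
      linarith
    have h9 : 0 < (x / Real.log x) ^ 2 := by positivity
    have h10 := mul_lt_mul_of_pos_left hx h9
    rw [h7]
    have h11 : (x / Real.log x) ^ 2 * ((2 + 1 / ε) * (Real.log x ^ 2 / x ^ ε) +
      1 / (1 - ε) * (4 * (Real.log x / x) + ((1 + 2 * (Real.log x / x)) / (1 - 3 * ε) +
        5 * (Real.log x / x)) / (2 * (1 - ε)))) = (2 + 1 / ε) * x ^ (2 - ε) +
        (x / Real.log x) ^ 2 * (1 / (1 - ε) * (4 * (Real.log x / x) +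
          ((1 + 2 * (Real.log x / x)) / (1 - 3 * ε) +
          5 * (Real.log x / x)) / (2 * (1 - ε)))) := by
      rw [e1]
      ring
    have h12 : (2 + 1 / ε) * x ^ (2 - ε) = 2 * x ^ (2 - ε) + x ^ (2 - ε) / ε := by ring
    linarith

/-- the number of the tiles -/
theorem asym_choose {N e n : ℕ} {L ε : ℝ} (hL : 16 ≤ L) (hℓ : 0 < Real.log L)
    (hn : (n : ℝ) = Real.exp L) (he : (L + 2 * Real.log L) ≤ (1 - 3 * ε) * Real.log L * e)
    (heL : (e : ℝ) ≤ L) (hN : L ^ (2 - 3 * ε) ≤ (N : ℝ) + 1) (hN2 : (N : ℝ) + 1 ≤ L ^ 2) :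
    (N + 1) * n ≤ Nat.choose (N + e) e := by
  have hL0 : 0 < L := by linarith
  have he0 : 0 < e := by
    rcases Nat.eq_zero_or_pos e with h | h
    · rw [h] at he
      simp only [Nat.cast_zero, mul_zero] at he
      linarith
    · exact h
  have he0' : (0 : ℝ) < e := by exact_mod_cast he0
  have h1 : ((N + e + 1 - e : ℕ) : ℝ) ^ e / (e.factorial : ℝ) ≤ ((N + e).choose e : ℝ) := by
    exact_mod_cast Nat.pow_le_choose (α := ℝ) e (N + e)
  have e1 : N + e + 1 - e = N + 1 := by omega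
  rw [e1] at h1
  have h2 : (e.factorial : ℝ) ≤ (e : ℝ) ^ e := by exact_mod_cast Nat.factorial_le_pow e
  have h3 : (0 : ℝ) < (e.factorial : ℝ) := by exact_mod_cast Nat.factorial_pos e
  have h4 : (((N : ℝ) + 1) / e) ^ e ≤ ((N + e).choose e : ℝ) := by
    refine le_trans ?_ h1
    rw [div_pow]
    push_cast
    exact div_le_div_of_nonneg_left (by positivity) h3 h2
  have h5 : L ^ (1 - 3 * ε) ≤ ((N : ℝ) + 1) / e := by
    rw [le_div_iff₀ he0']
    calc L ^ (1 - 3 * ε) * e ≤ L ^ (1 - 3 * ε) * L :=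
          mul_le_mul_of_nonneg_left heL (by positivity)
      _ = L ^ (2 - 3 * ε) := by
          rw [← Real.rpow_add_one hL0.ne']
          congr 1
          ring
      _ ≤ _ := hN
  have h6 : Real.exp L * L ^ 2 ≤ (L ^ (1 - 3 * ε)) ^ e := by
    have e2 : (L ^ (1 - 3 * ε)) ^ e = Real.exp ((1 - 3 * ε) * Real.log L * e) := by
      rw [← Real.rpow_natCast, ← Real.rpow_mul hL0.le, Real.rpow_def_of_pos hL0]
      congr 1
      ring
    have e3 : Real.exp L * L ^ 2 = Real.exp (L + 2 * Real.log L) := by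
      rw [Real.exp_add]
      congr 1
      rw [two_mul, Real.exp_add, Real.exp_log hL0]
      ring
    rw [e2, e3]
    exact Real.exp_le_exp.mpr he
  have h7 : (L ^ (1 - 3 * ε)) ^ e ≤ (((N : ℝ) + 1) / e) ^ e :=
    pow_le_pow_left₀ (by positivity) h5 e
  have h8 : ((N : ℝ) + 1) * n ≤ ((N + e).choose e : ℝ) := by
    refine le_trans ?_ (h6.trans (h7.trans h4))
    rw [hn, mul_comm]
    exact mul_le_mul_of_nonneg_left hN2 (Real.exp_pos _).le
  exact_mod_cast h8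

theorem asym_pow {n D : ℕ} {L c : ℝ} (hn : (n : ℝ) = Real.exp L) (hc : 0 < c)
    (h : n * L < (D + 1) * Real.log c) : (n : ℝ) ^ n < c ^ (D + 1) := by
  have e1 : (n : ℝ) ^ n = Real.exp (n * L) := by
    rw [hn, ← Real.exp_nat_mul, ← hn]
  have e2 : c ^ (D + 1) = Real.exp ((D + 1) * Real.log c) := by
    rw [← Real.rpow_natCast, Real.rpow_def_of_pos hc]
    push_cast
    congr 1
    ring
  rw [e1, e2]
  exact Real.exp_lt_exp.mpr h

theorem asym3 (A : ℝ) (hA : 1 / 2 < A) : ∃ n0 : ℕ, ∀ n : ℕ, n0 ≤ n →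
    ∃ (q h e s : ℕ) (blk : Fin n → ℕ) (a : Fin n → Fin (q + 1) → ℕ) (D1 D2 : ℕ) (c0 c1 : ℝ),
      1 ≤ s ∧ s ≤ n ∧ BTiles n q (e + 4) h s blk a ∧
      (∀ ρ, ∑ l ∈ Finset.univ.filter (fun l : Fin (q + 1) => (l : ℕ) < h), tbet a ρ l ≤ 4) ∧
      1 < c0 ∧ 1 < c1 ∧ (n : ℝ) ^ n < c0 ^ (D1 + 1) ∧ (n : ℝ) ^ n < c1 ^ (D2 + 1) ∧
      (n : ℝ) / (2 * ((n : ℝ) - s + 1)) ≤ 1 ∧
      c0 * ((q : ℝ) + 1) + c1 * D1 / n +
        D2 * (4 + ((e : ℝ) + 4) * (n / (2 * ((n : ℝ) - s + 1)))) / n <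
        A * (Real.log n / Real.log (Real.log n)) ^ 2 := by
  obtain ⟨ε, hε, hε1, hεA⟩ := asym_eps A hA
  have hev := (Real.tendsto_log_atTop.comp tendsto_natCast_atTop_atTop).eventually
    (asym_real A ε hε hε1 hεA)
  obtain ⟨n0, hn0⟩ := eventually_atTop.mp (hev.and (eventually_ge_atTop 2))
  refine ⟨n0, fun n hn => ?_⟩
  obtain ⟨⟨ha, hb, hc, hℓ1, hd, hL16, hfin⟩, hn2⟩ := hn0 n hn
  simp only [Function.comp_apply] at ha hb hc hℓ1 hd hL16 hfin
  set L := Real.log (n : ℝ) with hL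
  set ℓ := Real.log L with hℓ
  have hn1 : (1 : ℝ) < n := by exact_mod_cast hn2
  have hn00 : (0 : ℝ) < n := by linarith
  have hL0 : 0 < L := by linarith
  have hℓ0 : 0 < ℓ := by linarith
  have hexp : (n : ℝ) = Real.exp L := by rw [hL, Real.exp_log hn00]
  have hε3 : 0 < 1 - 3 * ε := by linarith
  have hε2 : 0 < 1 - ε := by linarith
  -- the number of the small minima
  set s := ⌈ε * n⌉₊ with hs
  have hs1 : ε * n ≤ s := Nat.le_ceil _
  have hs2 : (s : ℝ) < ε * n + 1 := Nat.ceil_lt_add_one (by positivity)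
  have hs3 : 1 ≤ s := Nat.one_le_iff_ne_zero.mpr (Nat.ceil_pos.mpr (by positivity)).ne'
  have hs4 : s ≤ n := Nat.ceil_le.mpr (by nlinarith)
  have hsr : (0 : ℝ) < s := by exact_mod_cast hs3
  obtain ⟨T, blk, hok, hlt, hT⟩ := exists_blocks n s hs3 hs4
  have hT2 : (T : ℝ) ≤ L / ε + 1 := by
    have h1 : (n : ℝ) / s ≤ 1 / ε := by
      rw [div_le_div_iff₀ hsr hε]
      linarith
    have h2 : (n : ℝ) / s * L ≤ 1 / ε * L := mul_le_mul_of_nonneg_right h1 hL0.le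
    have h3 : 1 / ε * L = L / ε := by ring
    linarith
  -- the number of the variables
  set q := ⌊L ^ (2 - 2 * ε)⌋₊ with hq
  have hq1 : (q : ℝ) ≤ L ^ (2 - 2 * ε) := Nat.floor_le (by positivity)
  have hq2 : L ^ (2 - 2 * ε) < q + 1 := Nat.lt_floor_add_one _
  have hhq : T + 1 ≤ q := by
    have h1 : (T : ℝ) + 1 < q + 1 := by linarith
    have h2 : T + 1 < q + 1 := by exact_mod_cast h1
    omega
  -- the degree
  set e := ⌈(L + 2 * ℓ) / ((1 - 3 * ε) * ℓ)⌉₊ with he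
  have he1 : (L + 2 * ℓ) / ((1 - 3 * ε) * ℓ) ≤ e := Nat.le_ceil _
  have he2 : (e : ℝ) < (L + 2 * ℓ) / ((1 - 3 * ε) * ℓ) + 1 := Nat.ceil_lt_add_one (by positivity)
  have hcard : (q + 2 - (T + 1)) * n ≤ Nat.choose (q + 1 - (T + 1) + e) e := by
    have h1 : q + 2 - (T + 1) = (q + 1 - (T + 1)) + 1 := by omega
    have h2 : ((q + 1 - (T + 1) : ℕ) : ℝ) = q - T := by
      rw [Nat.cast_sub (by omega)]
      push_cast
      ring
    rw [h1]
    refine asym_choose hL16 hℓ0 hexp ?_ (by linarith) ?_ ?_ (ε := ε)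
    · rw [div_le_iff₀ (by positivity)] at he1
      linarith
    · rw [h2]
      linarith
    · rw [h2]
      have : (0 : ℝ) ≤ T := Nat.cast_nonneg _
      linarith
  obtain ⟨a, hBT, hhead⟩ := design3 (e := e) hok hlt rfl hhq hcard
  -- the dimensions
  set D1 := ⌊n * L / (ε * ℓ)⌋₊ with hD1
  set D2 := ⌊n * L / ((1 - ε) * ℓ)⌋₊ with hD2
  have hD1a : (D1 : ℝ) ≤ n * L / (ε * ℓ) := Nat.floor_le (by positivity)
  have hD1b : n * L / (ε * ℓ) < D1 + 1 := Nat.lt_floor_add_one _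
  have hD2a : (D2 : ℝ) ≤ n * L / ((1 - ε) * ℓ) := Nat.floor_le (by positivity)
  have hD2b : n * L / ((1 - ε) * ℓ) < D2 + 1 := Nat.lt_floor_add_one _
  have hL1 : 1 < L := by linarith
  have hsize : (n : ℝ) / (2 * ((n : ℝ) - s + 1)) ≤ 1 / (2 * (1 - ε)) := by
    have h1 : (1 - ε) * n ≤ (n : ℝ) - s + 1 := by linarith
    have h2 : 0 < (1 - ε) * n := by positivity
    rw [div_le_div_iff₀ (by linarith) (by positivity)]
    nlinarith
  refine ⟨q, T + 1, e, s, blk, a, D1, D2, L ^ ε, L ^ (1 - ε), hs3, hs4, hBT, hhead,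
    Real.one_lt_rpow hL1 hε, Real.one_lt_rpow hL1 hε2, ?_, ?_, ?_, ?_⟩
  · refine asym_pow hexp (by positivity) ?_
    rw [Real.log_rpow hL0]
    rw [div_lt_iff₀ (by positivity)] at hD1b
    exact hD1b
  · refine asym_pow hexp (by positivity) ?_
    rw [Real.log_rpow hL0]
    rw [div_lt_iff₀ (by positivity)] at hD2b
    exact hD2b
  · refine hsize.trans ?_
    rw [div_le_one (by positivity)]
    linarith
  · refine lt_of_le_of_lt ?_ hfin
    have t1 : L ^ ε * ((q : ℝ) + 1) ≤ L ^ ε * (L ^ (2 - 2 * ε) + 1) :=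
      mul_le_mul_of_nonneg_left (by linarith) (by positivity)
    have t2 : L ^ (1 - ε) * D1 / n ≤ L ^ (1 - ε) * (L / (ε * ℓ)) := by
      rw [mul_div_assoc]
      refine mul_le_mul_of_nonneg_left ?_ (by positivity)
      rw [div_le_iff₀ hn00]
      refine hD1a.trans (le_of_eq ?_)
      ring
    have t3 : (D2 : ℝ) * (4 + ((e : ℝ) + 4) * (n / (2 * ((n : ℝ) - s + 1)))) / n ≤
        L / ((1 - ε) * ℓ) *
        (4 + ((L + 2 * ℓ) / ((1 - 3 * ε) * ℓ) + 5) / (2 * (1 - ε))) := by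
      have h1 : (D2 : ℝ) / n ≤ L / ((1 - ε) * ℓ) := by
        rw [div_le_iff₀ hn00]
        refine hD2a.trans (le_of_eq ?_)
        ring
      have h2 : ((e : ℝ) + 4) * (n / (2 * ((n : ℝ) - s + 1))) ≤
          ((L + 2 * ℓ) / ((1 - 3 * ε) * ℓ) + 5) / (2 * (1 - ε)) := by
        have h3 : (e : ℝ) + 4 ≤ (L + 2 * ℓ) / ((1 - 3 * ε) * ℓ) + 5 := by linarith
        calc ((e : ℝ) + 4) * (n / (2 * ((n : ℝ) - s + 1))) ≤
            ((e : ℝ) + 4) * (1 / (2 * (1 - ε))) :=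
              mul_le_mul_of_nonneg_left hsize (by positivity)
          _ ≤ ((L + 2 * ℓ) / ((1 - 3 * ε) * ℓ) + 5) * (1 / (2 * (1 - ε))) :=
              mul_le_mul_of_nonneg_right h3 (by positivity)
          _ = _ := by rw [mul_one_div]
      have h4 : (D2 : ℝ) * (4 + ((e : ℝ) + 4) * (n / (2 * ((n : ℝ) - s + 1)))) / n =
          (D2 : ℝ) / n * (4 + ((e : ℝ) + 4) * (n / (2 * ((n : ℝ) - s + 1)))) := by ring
      have h5 : 0 ≤ ((L + 2 * ℓ) / ((1 - 3 * ε) * ℓ) + 5) / (2 * (1 - ε)) := by positivity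
      rw [h4]
      refine mul_le_mul h1 (by linarith) ?_ (by positivity)
      have h6 : (0 : ℝ) ≤ n / (2 * ((n : ℝ) - s + 1)) := by
        have : (s : ℝ) ≤ n := by exact_mod_cast hs4
        refine div_nonneg hn00.le ?_
        linarith
      positivity
    linarith

end Pool.Agent.H57.UD
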