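import Pool.Agent.H52.UB.Defs2
import Pool.Agent.H52.UB.Colour

/-!
# Project UD: a tile system with blocks, few full variables and heads of degree at most `4`
-/

set_option autoImplicit false

namespace Pool.Agent.H57.UD

open Pool.Agent.H52.UB

theorem tbet_ind {n q : ℕ} (a : Fin n → Fin (q + 1) → ℕ) (ρ : Fin n × Fin (q + 1))
    (l : Fin (q + 1)) : tbet a ρ l = a ρ.1 l + ub37_ind ρ.2 l := by
  unfold tbet ub37_ind
  by_cases h : ρ.2 = 0
  · simp [h]
  · simp only [h, if_false, Pi.add_apply, ne_eq, not_false_eq_true, true_and]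
    rw [Pi.single_apply]

/-- the head of the block `t` -/
def pre {q : ℕ} (t : ℕ) (l : Fin (q + 1)) : ℕ :=
  (if l = 0 then 1 else 0) + if (l : ℕ) = t + 1 then 2 else 0

theorem pre_sum {q : ℕ} (t : ℕ) : ∑ l : Fin (q + 1), pre t l ≤ 3 := by
  unfold pre
  rw [Finset.sum_add_distrib, Finset.sum_ite_eq']
  simp only [Finset.mem_univ, if_true]
  have h1 : ∑ l : Fin (q + 1), (if (l : ℕ) = t + 1 then 2 else 0) ≤ 2 := by
    by_cases ht : t + 1 < q + 1
    · rw [Finset.sum_eq_single (⟨t + 1, ht⟩ : Fin (q + 1))]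
      · simp
      · intro b _ hb
        rw [if_neg]
        intro h
        exact hb (Fin.ext h)
      · intro h
        exact absurd (Finset.mem_univ _) h
    · rw [Finset.sum_eq_zero]
      · omega
      · intro l _
        rw [if_neg]
        have := l.2
        omega
  omega

theorem pre_eq {q : ℕ} {t t' : ℕ} (ht : t + 1 < q + 1) {i i' : Fin (q + 1)}
    (h : pre t (⟨t + 1, ht⟩ : Fin (q + 1)) + ub37_ind i ⟨t + 1, ht⟩ =
      pre t' (⟨t + 1, ht⟩ : Fin (q + 1)) + ub37_ind i' ⟨t + 1, ht⟩) : t = t' := by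
  have h0 : (⟨t + 1, ht⟩ : Fin (q + 1)) ≠ 0 := by
    intro h1
    have := congrArg Fin.val h1
    simp at this
  have h1 : ub37_ind i' (⟨t + 1, ht⟩ : Fin (q + 1)) ≤ 1 := by
    unfold ub37_ind
    split_ifs <;> omega
  unfold pre at h
  rw [if_neg h0] at h
  simp only [if_true] at h
  by_contra hne
  rw [if_neg (by simpa using hne)] at h
  omega

theorem design3 {n q h e s T : ℕ} {blk : Fin n → ℕ} (hb : BlockOK n s blk)
    (hT : ∀ j, blk j < T) (hh : T + 1 = h) (hq : h ≤ q)
    (hN : (q + 2 - h) * n ≤ Nat.choose (q + 1 - h + e) e) :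
    ∃ a : Fin n → Fin (q + 1) → ℕ, BTiles n q (e + 4) h s blk a ∧
      ∀ ρ, ∑ l ∈ Finset.univ.filter (fun l : Fin (q + 1) => (l : ℕ) < h), tbet a ρ l ≤ 4 := by
  classical
  let ι := {l : Fin (q + 1) // ¬ (l : ℕ) < h}
  have hι : Fintype.card ι = q + 1 - h := by
    rw [Fintype.card_subtype_compl, Fintype.card_fin, Fintype.card_subtype,
      Fin.card_filter_val_lt]
    omega
  let S := {f : ι → ℕ // ∑ i, f i ≤ e}
  have hfin : Finite S := ub8_finite _ _
  let _ : Fintype S := Fintype.ofFinite S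
  have hcard : Fintype.card S = Nat.choose (q + 1 - h + e) e := by
    rw [← Nat.card_eq_fintype_card, ub8_card, hι]
  have hne : NeZero (q + 2 - h) := ⟨by omega⟩
  -- extension by zero
  let ext : S → (Fin (q + 1) → ℕ) := fun f l => if hl : (l : ℕ) < h then 0 else f.1 ⟨l, hl⟩
  have hext : Function.Injective ext := by
    intro f g hfg
    apply Subtype.ext
    funext l
    have := congrFun hfg l.1
    simp only [ext, l.2, dite_false] at this
    exact this
  have hext0 : ∀ f (l : Fin (q + 1)), (l : ℕ) < h → ext f l = 0 := by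
    intro f l hl
    simp only [ext, hl, dite_true]
  have hextsum : ∀ f : S, ∑ l, ext f l ≤ e := by
    intro f
    have h1 : ∑ l, ext f l = ∑ l : ι, f.1 l := by
      rw [← Finset.sum_filter_add_sum_filter_not Finset.univ
        (fun l : Fin (q + 1) => ¬ (l : ℕ) < h)]
      rw [Finset.sum_subtype (p := fun l : Fin (q + 1) => ¬ (l : ℕ) < h) _ (by simp)]
      have h2 : ∑ l ∈ Finset.univ.filter (fun l : Fin (q + 1) => ¬ ¬ (l : ℕ) < h), ext f l = 0 := by
        refine Finset.sum_eq_zero fun l hl => hext0 f l ?_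
        simpa using (Finset.mem_filter.mp hl).2
      rw [h2, add_zero]
      refine Finset.sum_congr rfl fun l _ => ?_
      simp only [ext, l.2, dite_false]
    rw [h1]
    exact f.2
  let w : Fin (q + 1) → ℕ := fun l => if (l : ℕ) < h then 0 else (l : ℕ) - h + 1
  have hw0 : w 0 = 0 := by
    have : ((0 : Fin (q + 1)) : ℕ) < h := by simp; omega
    simp only [w, this, if_true]
  have hwm : ∀ l, w l < q + 2 - h := by
    intro l
    have := l.2
    simp only [w]
    split_ifs with hl
    · omega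
    · omega
  obtain ⟨κ, hκ⟩ := Fintype.exists_le_card_fiber_of_mul_le_card
    (fun f : S => ((∑ l, w l * ext f l : ℕ) : ZMod (q + 2 - h))) (n := n) (by
      rw [hcard, ZMod.card]
      exact hN)
  obtain ⟨suf, hsuf⟩ : ∃ suf : Fin n ↪ S,
      ∀ j, ((∑ l, w l * ext (suf j) l : ℕ) : ZMod (q + 2 - h)) = κ := by
    have h1 : Fintype.card (Fin n) ≤ Fintype.card
        {f : S // ((∑ l, w l * ext f l : ℕ) : ZMod (q + 2 - h)) = κ} := by
      rw [Fintype.card_fin, Fintype.card_subtype]
      exact hκ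
    obtain ⟨g⟩ := Function.Embedding.nonempty_of_card_le h1
    exact ⟨g.trans (Function.Embedding.subtype _), fun j => (g j).2⟩
  let a : Fin n → Fin (q + 1) → ℕ := fun j l => pre (blk j) l + ext (suf j) l
  have hone : ∀ ρ ρ' : Fin n × Fin (q + 1),
      (∀ l : Fin (q + 1), (l : ℕ) < h → tbet a ρ l = tbet a ρ' l) → blk ρ.1 = blk ρ'.1 := by
    intro ρ ρ' hρ
    have ht : blk ρ.1 + 1 < q + 1 := by
      have := hT ρ.1
      omega
    have ht' : ((⟨blk ρ.1 + 1, ht⟩ : Fin (q + 1)) : ℕ) < h := by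
      have := hT ρ.1
      simp only
      omega
    have h1 := hρ ⟨blk ρ.1 + 1, ht⟩ ht'
    rw [tbet_ind, tbet_ind] at h1
    simp only [a, hext0 _ _ ht', add_zero] at h1
    exact pre_eq ht h1
  refine ⟨a, ⟨?_, ?_, ?_, hb, hone⟩, ?_⟩
  · intro j
    simp only [a, pre, if_true]
    omega
  · intro ρ ρ' hρ
    have hall : ∀ l, tbet a ρ l = tbet a ρ' l := fun l => congrFun hρ l
    have hblk := hone ρ ρ' fun l _ => hall l
    have h1 : ∀ l, ext (suf ρ.1) l + ub37_ind ρ.2 l = ext (suf ρ'.1) l + ub37_ind ρ'.2 l := by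
      intro l
      have h2 := hall l
      rw [tbet_ind, tbet_ind] at h2
      simp only [a, hblk] at h2
      omega
    have h2 : ρ.2 = ρ'.2 := by
      by_cases hi : ρ.2 ≠ 0 ∧ (ρ.2 : ℕ) < h
      · have h3 := h1 ρ.2
        rw [hext0 _ _ hi.2, hext0 _ _ hi.2] at h3
        simp only [ub37_ind, hi.1, ne_eq, not_false_eq_true, true_and, if_true, zero_add] at h3
        by_contra hne
        rw [if_neg (fun hc => hne hc.2)] at h3
        exact one_ne_zero h3
      by_cases hi' : ρ'.2 ≠ 0 ∧ (ρ'.2 : ℕ) < h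
      · have h3 := h1 ρ'.2
        rw [hext0 _ _ hi'.2, hext0 _ _ hi'.2] at h3
        simp only [ub37_ind, hi'.1, ne_eq, not_false_eq_true, true_and, if_true, zero_add] at h3
        by_contra hne
        rw [if_neg (fun hc => hne hc.2.symm)] at h3
        exact one_ne_zero h3.symm
      have h3 : w ρ.2 = w ρ'.2 := ub37_eq w hw0 hwm ((hsuf ρ.1).trans (hsuf ρ'.1).symm)
        fun l _ => h1 l
      have key : ∀ i : Fin (q + 1), ¬ (i ≠ 0 ∧ (i : ℕ) < h) → (i = 0 ∧ w i = 0) ∨
          (h ≤ (i : ℕ) ∧ w i = (i : ℕ) - h + 1) := by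
        intro i hi
        by_cases h0 : i = 0
        · left
          exact ⟨h0, by rw [h0]; exact hw0⟩
        · right
          have h4 : ¬ (i : ℕ) < h := fun h5 => hi ⟨h0, h5⟩
          exact ⟨not_lt.mp h4, by simp only [w, h4, if_false]⟩
      rcases key _ hi with ⟨e1, e2⟩ | ⟨e1, e2⟩ <;> rcases key _ hi' with ⟨e3, e4⟩ | ⟨e3, e4⟩
      · rw [e1, e3]
      · omega
      · omega
      · apply Fin.ext
        omega
    have h3 : ρ.1 = ρ'.1 := by
      apply suf.injective
      apply hext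
      funext l
      have h4 := h1 l
      rw [h2] at h4
      omega
    exact Prod.ext h3 h2
  · intro ρ
    have h1 : ∑ l, tbet a ρ l = ∑ l : Fin (q + 1), pre (blk ρ.1) l + ∑ l, ext (suf ρ.1) l +
        ∑ l, ub37_ind ρ.2 l := by
      rw [← Finset.sum_add_distrib, ← Finset.sum_add_distrib]
      exact Finset.sum_congr rfl fun l _ => tbet_ind a ρ l
    have h2 : ∑ l, ub37_ind ρ.2 l ≤ 1 := by
      rw [Finset.sum_eq_single ρ.2]
      · unfold ub37_ind
        split_ifs <;> omega
      · intro l _ hl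
        simp [ub37_ind, hl]
      · intro h
        exact absurd (Finset.mem_univ _) h
    have h3 := pre_sum (q := q) (blk ρ.1)
    have h4 := hextsum (suf ρ.1)
    omega
  · intro ρ
    have h1 : ∑ l ∈ Finset.univ.filter (fun l : Fin (q + 1) => (l : ℕ) < h), tbet a ρ l ≤
        ∑ l : Fin (q + 1), pre (blk ρ.1) l + ∑ l, ub37_ind ρ.2 l := by
      rw [← Finset.sum_add_distrib]
      refine (Finset.sum_congr rfl fun l hl => ?_).trans_le
        (Finset.sum_le_sum_of_subset (Finset.filter_subset _ _))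
      rw [tbet_ind]
      simp only [a, hext0 _ _ (Finset.mem_filter.mp hl).2, add_zero]
    have h2 : ∑ l, ub37_ind ρ.2 l ≤ 1 := by
      rw [Finset.sum_eq_single ρ.2]
      · unfold ub37_ind
        split_ifs <;> omega
      · intro l _ hl
        simp [ub37_ind, hl]
      · intro h
        exact absurd (Finset.mem_univ _) h
    have h3 := pre_sum (q := q) (blk ρ.1)
    omega

end Pool.Agent.H57.UD
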